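import Pool.Agent.H29.LA.Targets
import Mathlib.GroupTheory.Perm.Cycle.Type

/-!
# The row GRC: transitive actions of supersolvable groups on `2 p` points
-/

set_option autoImplicit false

namespace Pool.Agent.H56.LA

open Pool.Agent.H29.LA

theorem pf_GRC (hGRD : T_GRD) : T_GRC := by
  classical
  intro G _ _ p φ hp hp2 htr hss
  obtain ⟨r, N, hN, hN0, hNr, hstep⟩ := hss
  have hp0 : 0 < p := hp.pos
  have hp2' : 2 ≤ p := hp.two_le
  have hex : ∃ i, ∃ n ∈ N i, φ n ≠ 1 := by
    obtain ⟨g, hg⟩ := htr ⟨0, by omega⟩ ⟨1, by omega⟩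
    refine ⟨r, g, by rw [hNr]; trivial, fun h => ?_⟩
    rw [h, Equiv.Perm.one_apply, Fin.mk.injEq] at hg
    omega
  obtain ⟨i, hi⟩ : ∃ i, Nat.find hex = i + 1 := by
    refine Nat.exists_eq_succ_of_ne_zero fun h0 => ?_
    obtain ⟨n, hn, hn1⟩ := Nat.find_spec hex
    rw [h0, hN0, Subgroup.mem_bot] at hn
    exact hn1 (by rw [hn, map_one])
  have hlow : ∀ n ∈ N i, φ n = 1 := by
    intro n hn
    by_contra h
    exact Nat.find_min hex (m := i) (by omega) ⟨n, hn, h⟩
  obtain ⟨g₀, hg₀⟩ := hstep i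
  have hz : ∀ n ∈ N (i + 1), φ n ∈ Subgroup.zpowers (φ g₀) := by
    intro n hn
    have h1 : (N (i + 1)).map φ = Subgroup.zpowers (φ g₀) := by
      rw [hg₀, Subgroup.map_sup, MonoidHom.map_zpowers]
      have h2 : (N i).map φ = ⊥ := by
        rw [Subgroup.eq_bot_iff_forall]
        rintro x ⟨n, hn, rfl⟩
        exact hlow n hn
      rw [h2, bot_sup_eq]
    rw [← h1]
    exact Subgroup.mem_map_of_mem φ hn
  have hg₀mem : g₀ ∈ N (i + 1) := by
    rw [hg₀]
    exact Subgroup.mem_sup_right (Subgroup.mem_zpowers g₀)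
  have hconj : ∀ g : G, ∃ a : ℤ, φ g * φ g₀ * (φ g)⁻¹ = φ g₀ ^ a := by
    intro g
    obtain ⟨a, ha⟩ := Subgroup.mem_zpowers_iff.1 (hz (g * g₀ * g⁻¹) ((hN (i + 1)).conj_mem g₀ hg₀mem g))
    exact ⟨a, by rw [ha, map_mul, map_mul, map_inv]⟩
  have hu1 : φ g₀ ≠ 1 := by
    obtain ⟨n, hn, hn1⟩ := Nat.find_spec hex
    rw [hi] at hn
    intro h
    have h3 := hz n hn
    rw [h, Subgroup.zpowers_one_eq_bot, Subgroup.mem_bot] at h3
    exact hn1 h3
  set u := φ g₀ with hu
  have hfree : ∀ (k : ℤ) (x : Fin (2 * p)), (u ^ k) x = x → u ^ k = 1 := by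
    intro k x hx
    refine Equiv.ext fun y => ?_
    obtain ⟨g, hg⟩ := htr x y
    obtain ⟨a, ha⟩ := hconj g⁻¹
    have h0 : (φ g)⁻¹ * u * φ g = u ^ a := by
      rw [map_inv, inv_inv] at ha
      exact ha
    have h1 : u ^ k * φ g = φ g * (u ^ k) ^ a := by
      have h2 : ((φ g)⁻¹ * u * φ g) ^ k = (φ g)⁻¹ * u ^ k * φ g := by
        have h3 := conj_zpow (i := k) (a := (φ g)⁻¹) (b := u)
        rw [inv_inv] at h3
        exact h3
      rw [h0, ← zpow_mul, mul_comm a k, zpow_mul] at h2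
      rw [h2, mul_assoc, ← mul_assoc, mul_inv_cancel, one_mul]
    have h4 : ((u ^ k) ^ a) x = x := Equiv.Perm.zpow_apply_eq_self_of_apply_eq_self hx a
    have h5 := congrArg (fun e : Equiv.Perm (Fin (2 * p)) => e x) h1
    simp only [Equiv.Perm.mul_apply] at h5
    rw [h4, hg] at h5
    rw [h5, Equiv.Perm.one_apply]
  have hd0 : orderOf u ≠ 0 := (orderOf_pos u).ne'
  have hd1 : orderOf u ≠ 1 := fun h => hu1 (orderOf_eq_one_iff.1 h)
  -- elements of prime order
  have hprime : ∀ q : ℕ, q.Prime → q ∣ orderOf u → orderOf (u ^ (orderOf u / q)) = q ∧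
      (∀ y, (u ^ (orderOf u / q)) y ≠ y) ∧ ∃ n : ℕ, (u ^ (orderOf u / q)).cycleType =
        Multiset.replicate (n + 1) q ∧ (n + 1) * q = 2 * p := by
    intro q hq hqd
    have h1 : orderOf (u ^ (orderOf u / q)) = q := orderOf_pow_orderOf_div hd0 hqd
    have h2 : ∀ y, (u ^ (orderOf u / q)) y ≠ y := by
      intro y hy
      have h3 := hfree ((orderOf u / q : ℕ) : ℤ) y (by rw [zpow_natCast]; exact hy)
      rw [zpow_natCast] at h3
      rw [h3, orderOf_one] at h1
      exact hq.one_lt.ne h1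
    refine ⟨h1, h2, ?_⟩
    obtain ⟨n, hn⟩ := Equiv.Perm.cycleType_prime_order (σ := u ^ (orderOf u / q)) (by rw [h1]; exact hq)
    rw [h1] at hn
    refine ⟨n, hn, ?_⟩
    have h3 := Equiv.Perm.sum_cycleType (u ^ (orderOf u / q))
    have h4 : (u ^ (orderOf u / q)).support = Finset.univ := by
      ext y
      simp only [Equiv.Perm.mem_support, Finset.mem_univ, iff_true]
      exact h2 y
    rw [hn, h4, Multiset.sum_replicate, Finset.card_univ, Fintype.card_fin, smul_eq_mul] at h3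
    exact h3
  by_cases h2 : 2 ∣ orderOf u
  · obtain ⟨t1, t2, n, hn, hn2⟩ := hprime 2 Nat.prime_two h2
    have hnp : n + 1 = p := by omega
    refine ⟨g₀ ^ (orderOf u / 2), ?_⟩
    rw [map_pow, ← hu, Equiv.Perm.sign_of_cycleType, hn, Multiset.sum_replicate,
      Multiset.card_replicate, hnp]
    have hodd : Odd (p • 2 + p) := by
      have h6 : Odd p := hp.odd_of_ne_two hp2
      rw [smul_eq_mul]
      exact (Even.mul_left even_two p).add_odd h6
    exact hodd.neg_one_pow
  · obtain ⟨q, hq, hqd⟩ := Nat.exists_prime_and_dvd hd1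
    obtain ⟨t1, t2, n, hn, hn2⟩ := hprime q hq hqd
    have hq2 : q ≠ 2 := fun h => h2 (h ▸ hqd)
    have hqp : q = p := by
      have h3 : q ∣ 2 * p := ⟨n + 1, by rw [← hn2]; ring⟩
      rcases (Nat.Prime.dvd_mul hq).1 h3 with h4 | h4
      · exact absurd ((Nat.prime_dvd_prime_iff_eq hq Nat.prime_two).1 h4) hq2
      · exact (Nat.prime_dvd_prime_iff_eq hq hp).1 h4
    subst hqp
    set t := u ^ (orderOf u / q) with ht
    set x : Fin (2 * q) := ⟨0, by omega⟩ with hx
    -- a point outside of the orbit of `x`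
    obtain ⟨y, hy⟩ : ∃ y : Fin (2 * q), ∀ k : ℕ, (t ^ k) x ≠ y := by
      by_contra hcon
      push Not at hcon
      have h3 : (Finset.univ : Finset (Fin (2 * q))) ⊆
          (Finset.range q).image fun k => (t ^ k) x := by
        intro y _
        obtain ⟨k, hk⟩ := hcon y
        refine Finset.mem_image.2 ⟨k % q, Finset.mem_range.2 (Nat.mod_lt _ hp0), ?_⟩
        have h4 : t ^ (k % q) = t ^ k := by
          have h5 := pow_mod_orderOf t k
          rw [t1] at h5
          exact h5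
        rw [h4, hk]
      have h4 := (Finset.card_le_card h3).trans Finset.card_image_le
      rw [Finset.card_univ, Fintype.card_fin, Finset.card_range] at h4
      omega
    obtain ⟨g, hg⟩ := htr x y
    refine ⟨g, hGRD (Fin (2 * q)) q t (φ g) x hp hp2 (Fintype.card_fin _) t1 t2 ?_ ?_⟩
    · obtain ⟨a, ha⟩ := hconj g
      have h3 : φ g * t * (φ g)⁻¹ = t ^ a := by
        rw [ht, ← conj_pow, ha, ← zpow_natCast, ← zpow_natCast, ← zpow_mul, ← zpow_mul]
        exact congrArg (fun z : ℤ => u ^ z) (mul_comm _ _)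
      refine ⟨(a % (q : ℤ)).toNat, ?_⟩
      rw [h3]
      have h4 : (0 : ℤ) ≤ a % (q : ℤ) := Int.emod_nonneg _ (by exact_mod_cast hp0.ne')
      rw [← zpow_natCast, Int.toNat_of_nonneg h4]
      have h5 := zpow_mod_orderOf t a
      rw [t1] at h5
      exact h5.symm
    · intro k hk
      rw [hg] at hk
      exact hy k hk

end Pool.Agent.H56.LA
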