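import Pool.Agent.H97.LA.Targets
import Pool.Agent.H96.XS.RED

/-!
Symmetric circuits with matrix gates (MP_c62aed_lc), row REDI: the equations in small relations are
dropped.
-/

set_option autoImplicit false

namespace Pool.Agent.H56.LA

open Finset Pool.Agent.H60.SYM Pool.Agent.H42.XS Pool.Agent.H97.LA Pool.Agent.H96.XS
open Pool.Agent.H19.SYM

theorem pf_REDI : T_REDI := by
  classical
  intro n d K θ e U h1 hθ hinj hav
  obtain ⟨J, hJ, hJ2⟩ := suppU e U (θ := θ) (fun y ha hb hc => hav y ha hb hc)
  have hcard : K * n ≤ Jᶜ.card := by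
    have h2 : (K + 1) * n = K * n + n := by ring
    rw [card_compl, Fintype.card_fin]
    omega
  set h : Fin (K * n) → Fin ((K + 1) * n) := fun i => Jᶜ.orderEmbOfCardLe hcard i with hdef
  have hh : Function.Injective h := (Jᶜ.orderEmbOfCardLe hcard).injective
  have hmem : ∀ i, h i ∉ J := fun i =>
    mem_compl.mp (orderEmbOfCardLe_mem Jᶜ hcard i)
  have hne : ∀ y : Fin (K * n) → ZMod 2, y ≠ 0 → wt y ≤ 2 * θ →
      ¬ perp U (comb (fun i => e (h i)) y) := by
    intro y hy hw hp
    rw [← comb_extend e h hh] at hp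
    rw [← wt_extend h hh] at hw
    rcases le_or_gt (wt (Function.extend h y 0)) θ with hle | hlt
    · apply hy
      funext i
      have h3 := hJ2 _ hle hp (h i) (hmem i)
      rw [hh.extend_apply] at h3
      exact h3
    · exact hav _ hlt hw hp
  refine ⟨h, hh, ⟨fun i => hinj _, ?_⟩, hne⟩
  intro i j hij
  by_contra hne'
  have hpair : comb (fun i => e (h i)) (Pi.single i 1 + Pi.single j 1) = 0 := by
    rw [comb_add]
    funext v
    rw [Pi.add_apply, comb_single _ i (hinj _), comb_single _ j (hinj _), hij]
    split_ifs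
    · have h10 : (1 : ZMod 2) + 1 = 0 := by decide
      exact h10
    · simp
  refine hne (Pi.single i 1 + Pi.single j 1) ?_ ?_ ?_
  · intro hc
    have h4 := congrFun hc i
    rw [Pi.add_apply, Pi.single_eq_same, Pi.single_eq_of_ne hne'] at h4
    simp at h4
  · have h5 : ∀ l : Fin (K * n), wt (Pi.single l (1 : ZMod 2)) ≤ 1 := by
      intro l
      unfold wt
      have h6 : (univ.filter fun q => (Pi.single l (1 : ZMod 2) : Fin (K * n) → ZMod 2) q ≠ 0) ⊆
          {l} := by
        intro q hq
        rw [mem_filter] at hq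
        rw [mem_singleton]
        by_contra hql
        exact hq.2 (Pi.single_eq_of_ne hql _)
      exact (card_le_card h6).trans (by rw [card_singleton])
    have h7 := wt_add_le (Pi.single i (1 : ZMod 2)) (Pi.single j (1 : ZMod 2))
    have h8 := h5 i
    have h9 := h5 j
    omega
  · rw [hpair]
    exact perp_zero U

end Pool.Agent.H56.LA
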